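import Pool.Agent.TH315.SO.Mat

/-!
# Operators with algebraic coefficients over sofic groups and sofic actions, and over amenable groups

(1) Let the countable group `G` act ergodically on a probability space `(Ω, P)`; assume that the action is
sofic (it has finite models) or that `G` is amenable.  Let `F` be a finite subset of `G` and let
`A g : Ω → M_d(ℂ)`, `g ∈ F`, be measurable with finitely many values, all of whose entries are algebraic
numbers.  Let `T ω` be the operator on `ℓ²(G; ℂ^d)` given by `(T ω f)(i) = ∑ g ∈ F, A g (i⁻¹ ω) f(i g)`.  Then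
either there is a number `c` with `T ω = c` for almost every `ω`, or for almost every `ω` the operator `T ω`
has a closed subspace, neither `{0}` nor the whole space, which is invariant under all bounded operators
commuting with `T ω`.

(2) In particular (`Ω` a point): let `G` be any countable sofic group.  Every matrix over the group ring
`ℚ̄[G]`, acting on `ℓ²(G; ℂ^d)`, is a scalar or has a nontrivial closed hyperinvariant subspace.

No coefficient is assumed to be nonzero or dominating, and `G` need not have homomorphisms to `ℤ`.  Examples: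
matrices over `ℤ[G]` for residually finite, amenable, or free groups; adjacency operators of ergodic random
directed graphs; non-selfadjoint random block operators with rational or algebraic entries.

Proof.  `d = 1` suffices (replace `G` by `G × ℤ/d`).  After multiplication by an integer the coefficients lie
in the ring of integers `O` of a number field `K ∋ i`, and `T` has conjugates `T_v` for all places `v | ∞`.
For every `q ∈ ℤ`, `p ∈ O` the operators `q T - p` are limits (in moments, simultaneously for all `v`) of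
matrices over `O`: of compressions to Følner sets, or of the matrices
`m(x, y) = ∑_g [s_g y = x] a_g(θ_x)` on the finite models of the action.  The nonzero minors of these matrices
have norm at least one.  If `q T - p` is injective for almost every `ω`, the limit gives
`∑_v n_v τ log (δ + |(q T_v - p_v)^k|²) ≥ 0` for all `k` and `δ > 0`, `τ` being the trace of the covariant
fields.  By the pigeonhole principle `q ≠ 0` and `p` can be chosen with `|q τ(T) - p|` so small that the
lower bound for `τ log |(q T - p)^k|²` is incompatible with the Brown measure of `T` being the point mass at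
`τ(T)`.  So the method of Haagerup and Schultz gives a nontrivial hyperinvariant projection field, and
ergodicity makes its values nontrivial for almost every `ω`.  If `q T - p` is not injective, its kernel is
the subspace (or `T` is scalar).

The amenable case is due to helper322, the sofic one to helper315 (this file replaces the former version of
`AlgebraicCoefficients`, which treated amenable groups only).  The covariant fields, their trace, the zero-one
law and the tracial method are from the starting files (helpers 116 to 883 for `ErgodicOperators`, helpers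
712, 417, 270 for the Haagerup-Schultz library).
-/

set_option autoImplicit false
open MeasureTheory

namespace Pool.Agent.Results.MP_f981b0_an.AlgebraicCoefficients

/-- the Hilbert space `ℓ²(G; ℂ^d)`: the square summable complex functions on `G × {0, …, d - 1}` -/
abbrev L2 (G : Type) (d : ℕ) : Type := lp (fun _ : G × Fin d => ℂ) 2

/-- the bounded operators on `ℓ²(G; ℂ^d)` -/
abbrev Op (G : Type) (d : ℕ) : Type := L2 G d →L[ℂ] L2 G d

/-- `G` acts on the probability space `(Ω, P)` by measure-preserving maps, and every measurable set which is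
invariant under all of them has probability zero or one -/
structure ErgodicAction (G : Type) {Ω : Type} [Group G] [MeasurableSpace Ω] [MulAction G Ω]
    (P : Measure Ω) : Prop where
  preserving : ∀ g : G, MeasurePreserving (fun ω : Ω => g • ω) P P
  ergodic : ∀ B : Set Ω, MeasurableSet B → (∀ g : G, (fun ω : Ω => g • ω) ⁻¹' B = B) →
    P B = 0 ∨ P Bᶜ = 0

/-- sofic groups: for every finite `K ⊆ G` and `ε > 0` there are `n ≥ 1` and permutations `s g` of
`{0, …, n - 1}` such that, for `g, h ∈ K`, at most `ε n` points `x` have `s (g h) x ≠ s g (s h x)` and, if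
`g ≠ 1`, at most `ε n` points have `s g x = x` -/
def SoficGroup (G : Type) [Group G] : Prop :=
  ∀ (K : Finset G) (ε : ℝ), 0 < ε → ∃ (n : ℕ) (s : G → Equiv.Perm (Fin n)), 0 < n ∧
    (∀ g ∈ K, ∀ h ∈ K, (({x | s (g * h) x ≠ s g (s h x)}.ncard : ℕ) : ℝ) ≤ ε * n) ∧
    (∀ g ∈ K, g ≠ 1 → (({x | s g x = x}.ncard : ℕ) : ℝ) ≤ ε * n)

/-- sofic actions: for all finite `K ⊆ G`, finite families `𝒜` of measurable sets and `ε > 0` there are
permutations `s g` as before and points `θ x ∈ Ω`, `x < n`, such that, for `g ∈ K` and `A ∈ 𝒜`, at most `ε n`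
of the `x` violate `θ (s g x) ∈ A ↔ g • θ x ∈ A`, and the number of the `x` with `θ x ∈ A` differs from
`n P(A)` by at most `ε n` -/
def SoficAction (G : Type) {Ω : Type} [Group G] [MulAction G Ω] [MeasurableSpace Ω] (P : Measure Ω) :
    Prop :=
  ∀ (K : Finset G) (𝒜 : Finset (Set Ω)) (ε : ℝ), (∀ A ∈ 𝒜, MeasurableSet A) → 0 < ε →
    ∃ (n : ℕ) (s : G → Equiv.Perm (Fin n)) (θ : Fin n → Ω), 0 < n ∧
      (∀ g ∈ K, ∀ h ∈ K, (({x | s (g * h) x ≠ s g (s h x)}.ncard : ℕ) : ℝ) ≤ ε * n) ∧
      (∀ g ∈ K, g ≠ 1 → (({x | s g x = x}.ncard : ℕ) : ℝ) ≤ ε * n) ∧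
      (∀ g ∈ K, ∀ A ∈ 𝒜, (({x | ¬ (θ (s g x) ∈ A ↔ g • θ x ∈ A)}.ncard : ℕ) : ℝ) ≤ ε * n) ∧
      (∀ A ∈ 𝒜, |(({x | θ x ∈ A}.ncard : ℕ) : ℝ) - n * P.real A| ≤ ε * n)

/-- Følner's condition: for every finite `K ⊆ G` and `ε > 0` there is a finite nonempty `S ⊆ G` such that
for each `g ∈ K` at most `ε |S|` elements `i` of `S` have `i g ∉ S` -/
def AmenableGroup (G : Type) [Group G] : Prop :=
  ∀ (K : Finset G) (ε : ℝ), 0 < ε → ∃ S : Finset G, S.Nonempty ∧
    ∀ g ∈ K, (({i : G | i ∈ S ∧ i * g ∉ S}.ncard : ℕ) : ℝ) ≤ ε * (S.card : ℝ)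

/-- the matrix entries of the coefficients are measurable functions with finitely many values, which are
algebraic numbers -/
structure AlgebraicValued {G Ω : Type} [MeasurableSpace Ω] {d : ℕ}
    (A : G → Ω → Matrix (Fin d) (Fin d) ℂ) : Prop where
  measurable : ∀ g k l, Measurable fun ω => A g ω k l
  finite : ∀ g k l, (Set.range fun ω => A g ω k l).Finite
  algebraic : ∀ g ω k l, IsAlgebraic ℚ (A g ω k l)

/-- the operators `(T ω f)(i) = ∑ g ∈ F, A g (i⁻¹ ω) f(i g)` on `ℓ²(G; ℂ^d)` -/
def IsFamily {G Ω : Type} [Group G] [MulAction G Ω] {d : ℕ} (F : Finset G)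
    (A : G → Ω → Matrix (Fin d) (Fin d) ℂ) (T : Ω → Op G d) : Prop :=
  ∀ (ω : Ω) (f : L2 G d) (i : G) (k : Fin d), (T ω f : G × Fin d → ℂ) (i, k)
    = ∑ g ∈ F, ∑ l, A g (i⁻¹ • ω) k l * (f : G × Fin d → ℂ) (i * g, l)

/-- the operator `(T f)(i) = ∑ g ∈ F, A g f(i g)` on `ℓ²(G; ℂ^d)`: the matrix `∑ g ∈ F, A g ⊗ g` over the
group ring -/
def IsGroupRingOperator {G : Type} [Group G] {d : ℕ} (F : Finset G)
    (A : G → Matrix (Fin d) (Fin d) ℂ) (T : Op G d) : Prop :=
  ∀ (f : L2 G d) (i : G) (k : Fin d), (T f : G × Fin d → ℂ) (i, k)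
    = ∑ g ∈ F, ∑ l, A g k l * (f : G × Fin d → ℂ) (i * g, l)

/-- `T = c` for a number `c` -/
def IsScalar {G : Type} {d : ℕ} (c : ℂ) (T : Op G d) : Prop := ∀ f : L2 G d, T f = c • f

/-- `T` has a closed subspace, neither `{0}` nor the whole space, which is invariant under every bounded
operator commuting with `T` -/
def HasHyperinvariantSubspace {H : Type} [NormedAddCommGroup H] [NormedSpace ℂ H] (T : H →L[ℂ] H) :
    Prop :=
  ∃ V : Submodule ℂ H, IsClosed (V : Set H) ∧ V ≠ ⊥ ∧ V ≠ ⊤ ∧
    ∀ Q : H →L[ℂ] H, (∀ f, Q (T f) = T (Q f)) → ∀ f ∈ V, Q f ∈ V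

/-- the same for operators on `ℓ²(G; ℂ^d)` -/
def HasHyp {G : Type} {d : ℕ} (T : Op G d) : Prop := HasHyperinvariantSubspace T

/-- random coefficients: ergodic sofic actions and ergodic actions of amenable groups -/
theorem random (G Ω : Type) [Group G] [Countable G] [MeasurableSpace Ω] [MulAction G Ω]
    (P : Measure Ω) [IsProbabilityMeasure P] (hP : ErgodicAction G P)
    (hG : SoficAction G P ∨ AmenableGroup G)
    (d : ℕ) (hd : 1 ≤ d) (F : Finset G) (A : G → Ω → Matrix (Fin d) (Fin d) ℂ)
    (hA : AlgebraicValued A) :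
    (∃ T : Ω → Op G d, IsFamily F A T) ∧ ∀ T : Ω → Op G d, IsFamily F A T →
      (∃ c : ℂ, ∀ᵐ ω ∂P, IsScalar c (T ω)) ∨ ∀ᵐ ω ∂P, HasHyp (T ω) := by
  classical
  have : NeZero d := ⟨by omega⟩
  have hex : ∃ T : Ω → (Pool.Agent.W611.RO.L2 (G × Fin d) →L[ℂ] Pool.Agent.W611.RO.L2 (G × Fin d)),
      (∀ (ω : Ω) (f : Pool.Agent.W611.RO.L2 (G × Fin d)) (i : G) (k : Fin d),
        (T ω f : G × Fin d → ℂ) (i, k)
          = ∑ g ∈ F, ∑ l, A g (i⁻¹ • ω) k l * (f : G × Fin d → ℂ) (i * g, l)) ∧
      ((∃ c : ℂ, ∀ᵐ ω ∂P, T ω = c • 1) ∨ ∀ᵐ ω ∂P, Pool.Agent.W611.RO.HasHyp (T ω)) := by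
    rcases hG with hS | hG
    · exact Pool.Agent.TH315.SO.t_MATS G Ω P ⟨hP.preserving, hP.ergodic⟩ hS d F A
        hA.measurable hA.finite hA.algebraic
    · have hF : Pool.Agent.TH322.AC.Fol G := by
        intro K ε hε
        obtain ⟨S, hS, h⟩ := hG K ε hε
        refine ⟨S, hS, fun g hg => ?_⟩
        have h1 := h g hg
        have h2 : {i : G | i ∈ S ∧ i * g ∉ S}
            = ((S.filter fun i => i * g ∉ S : Finset G) : Set G) := by
          ext i
          simp
        rw [h2, Set.ncard_coe_finset] at h1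
        exact h1
      exact Pool.Agent.TH322.AC.t_MAT G Ω P ⟨hP.preserving, hP.ergodic⟩ hF d F A
        hA.measurable hA.finite hA.algebraic
  obtain ⟨T, hT, hmain⟩ := hex
  refine ⟨⟨T, hT⟩, fun T' hT' => ?_⟩
  have hTT : T' = T := by
    funext ω
    refine ContinuousLinearMap.ext fun f => lp.ext (funext fun x => ?_)
    obtain ⟨i, k⟩ := x
    rw [hT' ω f i k, hT ω f i k]
  subst hTT
  rcases hmain with ⟨c, hc⟩ | h
  · left
    refine ⟨c, ?_⟩
    filter_upwards [hc] with ω hω f
    rw [hω]
    rfl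
  · right
    filter_upwards [h] with ω hω
    obtain ⟨V, h1, h2, h3, h4⟩ := hω
    exact ⟨V, h1, h2, h3, fun Q hQ => h4 Q (ContinuousLinearMap.ext hQ)⟩

/-- matrices over the group ring of a sofic group -/
theorem deterministic (G : Type) [Group G] [Countable G] (hG : SoficGroup G)
    (d : ℕ) (hd : 1 ≤ d) (F : Finset G) (A : G → Matrix (Fin d) (Fin d) ℂ)
    (hA : ∀ g k l, IsAlgebraic ℚ (A g k l)) :
    (∃ T : Op G d, IsGroupRingOperator F A T) ∧ ∀ T : Op G d, IsGroupRingOperator F A T →
      (∃ c : ℂ, IsScalar c T) ∨ HasHyp T := by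
  classical
  have : NeZero d := ⟨by omega⟩
  obtain ⟨T, hT, hmain⟩ := Pool.Agent.TH315.SO.t_DET G hG d F A hA
  refine ⟨⟨T, hT⟩, fun T' hT' => ?_⟩
  have hTT : T' = T := by
    refine ContinuousLinearMap.ext fun f => lp.ext (funext fun x => ?_)
    obtain ⟨i, k⟩ := x
    rw [hT' f i k, hT f i k]
  subst hTT
  rcases hmain with ⟨c, hc⟩ | h
  · left
    refine ⟨c, fun f => ?_⟩
    rw [hc]
    rfl
  · right
    obtain ⟨V, h1, h2, h3, h4⟩ := h
    exact ⟨V, h1, h2, h3, fun Q hQ => h4 Q (ContinuousLinearMap.ext hQ)⟩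

theorem result :
    (∀ (G Ω : Type) [Group G] [Countable G] [MeasurableSpace Ω] [MulAction G Ω]
      (P : Measure Ω) [IsProbabilityMeasure P], ErgodicAction G P →
      (SoficAction G P ∨ AmenableGroup G) →
      ∀ (d : ℕ), 1 ≤ d → ∀ (F : Finset G) (A : G → Ω → Matrix (Fin d) (Fin d) ℂ),
        AlgebraicValued A →
        (∃ T : Ω → Op G d, IsFamily F A T) ∧ ∀ T : Ω → Op G d, IsFamily F A T →
          (∃ c : ℂ, ∀ᵐ ω ∂P, IsScalar c (T ω)) ∨ ∀ᵐ ω ∂P, HasHyp (T ω)) ∧
    (∀ (G : Type) [Group G] [Countable G], SoficGroup G →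
      ∀ (d : ℕ), 1 ≤ d → ∀ (F : Finset G) (A : G → Matrix (Fin d) (Fin d) ℂ),
        (∀ g k l, IsAlgebraic ℚ (A g k l)) →
        (∃ T : Op G d, IsGroupRingOperator F A T) ∧ ∀ T : Op G d, IsGroupRingOperator F A T →
          (∃ c : ℂ, IsScalar c T) ∨ HasHyp T) :=
  ⟨fun G Ω _ _ _ _ P _ hP hG d hd F A hA => random G Ω P hP hG d hd F A hA,
    fun G _ _ hG d hd F A hA => deterministic G hG d hd F A hA⟩

end Pool.Agent.Results.MP_f981b0_an.AlgebraicCoefficients
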