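import Pool.Agent.H751R2.GN.Final3

/-!
# MP_f981b0_an: typical quasinilpotents of the hyperfinite II₁ factor have a full invariant nest

Let `M` be the hyperfinite II₁ factor in its standard representation. In the set `QN` of the
contractions of `M` whose Brown measure is the point mass at `0`, with the metric of the 2-norm (a
`G_δ` in the complete unit ball of `M`), the typical element `T` (in the sense of Baire category)
generates `M` as a von Neumann algebra and has an increasing family of projections `P t ∈ M`,
`0 ≤ t ≤ 1`, of trace `t`, whose ranges are invariant under every element of `M` commuting with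
`T`, and which generates a maximal abelian subalgebra of `M`.

All the parts are from the starting repository (helper751 and helpers, never handed in).
-/

set_option autoImplicit false
open Filter Topology

namespace Pool.Agent.Results.MP_f981b0_an.HyperfiniteTypicalNest

open Pool.Agent.H751R2.GN

/-- **The typical contraction of the hyperfinite II₁ factor with Brown measure `δ₀` has a full
nest of invariant projections.** `HypData H` is the hyperfinite II₁ factor `D.M` in its standard
representation on `H` with trace vector `D.Ω`, `Ball D` its unit ball with `dist S T = ‖S Ω - T Ω‖`,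
`QN D` the operators in it with Brown measure `δ₀`. -/
theorem result (H : Type) [NormedAddCommGroup H] [InnerProductSpace ℂ H] [CompleteSpace H]
    (D : HypData H) :
    CompleteSpace (Ball D) ∧ (∀ S T : Ball D, dist S T = 0 → S = T) ∧
    IsGδ (QN D) ∧ BaireSpace (QN D) ∧
    {T : QN D |
      (∃ P : ℝ → (H →L[ℂ] H),
        (∀ t : ℝ, 0 ≤ t → t ≤ 1 → P t ∈ D.M ∧ star (P t) = P t ∧ P t * P t = P t ∧
          inner ℂ D.Ω (P t D.Ω) = (t : ℂ) ∧ T.1.1 * P t = P t * T.1.1 * P t ∧
          ∀ S ∈ D.M, S * T.1.1 = T.1.1 * S → S * P t = P t * S * P t) ∧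
        (∀ s t : ℝ, 0 ≤ s → s ≤ t → t ≤ 1 → P t * P s = P s) ∧
        ∀ x ∈ D.M, (∀ t : ℝ, 0 ≤ t → t ≤ 1 → x * P t = P t * x) → ∀ ε : ℝ, 0 < ε →
          ∃ (K : ℕ) (c : ℕ → ℂ), 0 < K ∧
            ‖x D.Ω - (∑ j ∈ Finset.range K,
              c j • (P (((j : ℝ) + 1) / K) - P ((j : ℝ) / K))) D.Ω‖ < ε) ∧
      ∀ S : H →L[ℂ] H, S * T.1.1 = T.1.1 * S → S * star T.1.1 = star T.1.1 * S →
        ∀ x ∈ D.M, S * x = x * S} ∈ residual (QN D) :=
  p_MAINM H D

end Pool.Agent.Results.MP_f981b0_an.HyperfiniteTypicalNest
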