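import Pool.Agent.TH908.IS.Fin3
import Pool.Agent.TH908.IS.B3

/-!
# Almost every diagonal perturbation of a matrix operator has a hyperinvariant subspace

Let `V x`, `x ∈ ℕ`, be independent complex random variables whose laws are uniformly regular in the
sense that `E |V x - b|^(-σ) ≤ N` for all `x` and all `b ∈ ℂ`, with some exponent `0 < σ ≤ 1`
(bounded densities on the real line, any `σ < 1`; bounded densities in the plane, `σ = 1`; uniformly
Hölder continuous laws, for instance on Cantor sets). Let `a` be any complex matrix with `σ`-summable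
rows and columns whose off-diagonal row and column sums `∑_{y ≠ x} |a x y|^σ`, `∑_{y ≠ x} |a y x|^σ`
are at most `κ` for all but finitely many `x`, where `N κ < 1`.

Let `X` be a Banach space with a bounded total biorthogonal system `e x`, `ε x` (for instance `ℓ^p`,
`1 ≤ p ≤ ∞`, or any space with a normalised unconditional basis, such as `L^p [0, 1]`, `1 < p < ∞`;
every separable Banach space has such systems). Then for almost every sample every bounded operator on
`X` with the matrix `a + diag V` has a closed subspace, different from `0` and the whole space, which is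
invariant under all bounded operators that commute with it.

So: (1) for every matrix with `σ`-summable rows and columns (all band matrices with bounded entries, for
instance all non-selfadjoint tight-binding operators of finite range on lattices), almost every
diagonal perturbation by independent variables of comparable size has a nontrivial hyperinvariant
subspace; (2) if the off-diagonal row and column sums tend to zero, whatever their size, then this holds
for random diagonals of any size, small or large. Nothing else is supposed: the operators are in general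
far from normal, nothing decays at infinity in (1), and there is no hypothesis on the spectrum.

Proof (`Pool.Agent.TH908.IS`, by several seats). For every `z ∈ ℂ` the inverse `G` of the restriction
of `z - A - V` to a finite set of sites exists almost surely, and the dependence on one variable `V y`
gives `E |G_Λ (0, y)|^σ ≤ N (δ + ∑ u, |a u y|^σ E |G_{Λ - y} (0, u)|^σ)`; removing sites one after the
other, each exceptional site at most once, one gets a bound of `∑ y, E |G_Λ (0, y)|^σ` which does not
depend on `Λ` and `z`: a whole row of the inverse is bounded, also for `z` inside the spectrum. By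
Fatou's lemma and weak-star limits in `ℓ^1` along subsequences that depend on `z`, almost surely the
first basis vector has a measurable local resolvent for `T` and the first functional has one for the
adjoint, defined for almost all `z ∈ ℂ`, with locally integrable `σ`-th power. If the local spectra are
not one and the same point the theorem on measurable local resolvents of the starting library
(`Pool.Agent.W610.HY`) gives the subspace; if they are one point `l` then `‖F‖^σ` is subharmonic for the
local resolvent `F` and integrable near `l`, so that `l` is at most a pole, and `T` has an eigenvector.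
If `T` or its adjoint has eigenvectors there is nothing to prove, since `T` is almost surely not a
multiple of the identity.
-/

set_option autoImplicit false

open MeasureTheory
open scoped ENNReal NNReal

namespace Pool.Agent.Results.MP_f981b0_an.RandomDiagonal

/-- `e`, `ε` is a bounded total biorthogonal system of the Banach space `X`. -/
def BoundedSystem {X : Type} [NormedAddCommGroup X] [NormedSpace ℂ X] (e : ℕ → X)
    (ε : ℕ → (X →L[ℂ] ℂ)) : Prop :=
  (∀ x y, ε x (e y) = if x = y then 1 else 0) ∧ (∃ C : ℝ, ∀ x, ‖e x‖ ≤ C ∧ ‖ε x‖ ≤ C) ∧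
    ∀ f : X, (∀ x, ε x f = 0) → f = 0

/-- The random variables `V x` are independent and `E |V x - b|^(-σ) ≤ N` for all `x` and all complex
numbers `b`. -/
def Regular {Ω : Type} [MeasurableSpace Ω] (P : Measure Ω) (V : ℕ → Ω → ℂ) (σ : ℝ) (N : ℝ≥0) :
    Prop :=
  (∀ x, Measurable (V x)) ∧ ProbabilityTheory.iIndepFun V P ∧
    ∀ (x : ℕ) (b : ℂ), ∫⁻ ω, (‖V x ω - b‖ₑ⁻¹) ^ σ ∂P ≤ N

/-- All rows and columns of the matrix `a` are `σ`-summable, and the off-diagonal sums
`∑_{y ≠ x} |a x y|^σ` and `∑_{y ≠ x} |a y x|^σ` are at most `κ` for all but finitely many `x`. -/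
def OffDiagonal (a : ℕ → ℕ → ℂ) (σ : ℝ) (κ : ℝ≥0) : Prop :=
  (∀ x, ∑' y, ‖a x y‖ₑ ^ σ ≠ ⊤) ∧ (∀ y, ∑' x, ‖a x y‖ₑ ^ σ ≠ ⊤) ∧
    ∃ F : Finset ℕ, ∀ x, x ∉ F → ∑' y, (if y = x then 0 else ‖a x y‖ₑ ^ σ) ≤ κ ∧
      ∑' y, (if y = x then 0 else ‖a y x‖ₑ ^ σ) ≤ κ

/-- The operator `T` has the matrix `a + diag v`. -/
def HasMatrix {X : Type} [NormedAddCommGroup X] [NormedSpace ℂ X] (T : X →L[ℂ] X)
    (ε : ℕ → (X →L[ℂ] ℂ)) (a : ℕ → ℕ → ℂ) (v : ℕ → ℂ) : Prop :=
  ∀ (f : X) (x : ℕ), ε x (T f) = ∑' y, a x y * ε y f + v x * ε x f

/-- `T` has a closed hyperinvariant subspace, different from `0` and from the whole space. -/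
def HasHyperinvariant {X : Type} [NormedAddCommGroup X] [NormedSpace ℂ X] (T : X →L[ℂ] X) : Prop :=
  ∃ W : Submodule ℂ X, IsClosed (W : Set X) ∧ W ≠ ⊥ ∧ W ≠ ⊤ ∧
    ∀ Q : X →L[ℂ] X, Q * T = T * Q → ∀ f ∈ W, Q f ∈ W

/-- **Random diagonal perturbations have hyperinvariant subspaces.** Let `X` be a Banach space with a
bounded total biorthogonal system `e`, `ε`. Let `V x` be independent random variables with
`E |V x - b|^(-σ) ≤ N` for all `x` and `b` (`0 < σ ≤ 1`), and let `a` be a complex matrix with
`σ`-summable rows and columns whose off-diagonal sums of `|a x y|^σ` are at most `κ` for all but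
finitely many rows and columns, `N κ < 1`. Let `T ω` be bounded operators on `X` which, for almost
every `ω`, have the matrix `a + diag (V · ω)`. Then for almost every `ω` the operator `T ω` has a closed
hyperinvariant subspace other than `0` and `X`. -/
theorem result (X : Type) [NormedAddCommGroup X] [NormedSpace ℂ X] [CompleteSpace X] (e : ℕ → X)
    (ε : ℕ → (X →L[ℂ] ℂ)) (he : BoundedSystem e ε)
    (Ω : Type) [MeasurableSpace Ω] (P : Measure Ω) [IsProbabilityMeasure P]
    (V : ℕ → Ω → ℂ) (σ : ℝ) (hσ : 0 < σ) (hσ1 : σ ≤ 1) (N κ : ℝ≥0) (hV : Regular P V σ N)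
    (a : ℕ → ℕ → ℂ) (ha : OffDiagonal a σ κ) (hNκ : N * κ < 1)
    (T : Ω → (X →L[ℂ] X)) (hT : ∀ᵐ ω ∂P, HasMatrix (T ω) ε a (fun x => V x ω)) :
    ∀ᵐ ω ∂P, HasHyperinvariant (T ω) := by
  obtain ⟨hbi, ⟨C, hC⟩, htot⟩ := he
  obtain ⟨hr, hc, F, hF⟩ := ha
  exact Pool.Agent.TH908.IS.Fin3.main (Pool.Agent.TH908.IS.B3.main Pool.Agent.TH908.IS.A.main) X e ε
    hbi C hC htot Ω P V hV.1 hV.2.1 σ hσ hσ1 N κ hV.2.2 a hr hc F hF hNκ T hT

end Pool.Agent.Results.MP_f981b0_an.RandomDiagonal
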